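import Pool.Agent.Unq.PolU
import Pool.Agent.LPC.ZFTools

/-!
# Package Unq-Def: the coefficients are definable

*`rs_def`.* `rs (a v) (q v) k` is `ZF` for `ZF` functions `a i`, `q`: the resultant is the determinant
of the Sylvester matrix, whose entries are coefficients of the two polynomials (0, 1, `a i`, `q ^ k`,
`-1`): `zf_det` (`LPC/ZFToolsA`), for matrices indexed by `Fin (n + k)`; or the determinant formula
`Matrix.det_apply`, `ZF.sum`, `zf_prod`. Show first that every coefficient of `pol (a v)` and of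
`C (q ^ k) - X ^ k` is `ZF`.

*`coef_def`.* Write `a v i = p - m`; the pair of the functions `(a v i).toNat`, `(-(a v i)).toNat` is
`DFun` by `DFun.ofGraph` with the bound `B v`: `y = (a v i).toNat` iff there is a vector `z` of `2 n`
numbers `≤ B v` (`Delta0.bexVec`) such that `b j = z_j - z_(n + j)` (`j < n`) satisfies
`e k v * rs b (q v) k = f k v` for `1 ≤ k ≤ 2 ^ (n + 1)` and `y = (b i).toNat`. If `b` satisfies these
equations then `rs b (q v) k = rs (a v) (q v) k` (`e k v ≠ 0`), so `b = a v` by `pol_uniq`. ∎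

Difficulty: 1.2 h.
-/

set_option autoImplicit false

namespace Pool.Agent.Unq

open Polynomial Finset Pool.Agent.Grz Pool.Agent.GAvg Pool.Agent.PTr Pool.Agent.MTr
  Pool.Agent.LPC

private theorem zf_pow {r : ℕ} {q : (Fin r → ℕ) → ℤ} (hq : ZF r q) (k : ℕ) :
    ZF r (fun v => q v ^ k) := by
  induction k with
  | zero => exact (ZF.const 1).congr fun v => by simp
  | succ k ih => exact (ih.mul hq).congr fun v => by rw [pow_succ]

private theorem zf_coeff_pol {r n : ℕ} {a : (Fin r → ℕ) → Fin n → ℤ}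
    (ha : ∀ i, ZF r (fun v => a v i)) (m : ℕ) : ZF r (fun v => (pol (a v)).coeff m) := by
  have h1 : ZF r (fun v => (if m = n then (1 : ℤ) else 0) +
      ∑ i : Fin n, a v i * (if m = n - 1 - (i : ℕ) then (1 : ℤ) else 0)) :=
    (ZF.const _).add (ZF.sum _ fun i => (ha i).mul (ZF.const _))
  refine h1.congr fun v => ?_
  rw [pol, coeff_add, coeff_X_pow, finsetSum_coeff]
  congr 1
  refine Finset.sum_congr rfl fun i _ => ?_
  rw [coeff_C_mul, coeff_X_pow]

private theorem zf_coeff_q {r : ℕ} {q : (Fin r → ℕ) → ℤ} (hq : ZF r q) (k m : ℕ) :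
    ZF r (fun v => (C (q v ^ k) - X ^ k : ℤ[X]).coeff m) := by
  have h1 : ZF r (fun v => q v ^ k * (if m = 0 then (1 : ℤ) else 0) -
      (if m = k then (1 : ℤ) else 0)) :=
    ((zf_pow hq k).mul (ZF.const _)).sub (ZF.const _)
  refine h1.congr fun v => ?_
  rw [coeff_sub, coeff_X_pow, coeff_C]
  split_ifs <;> simp

theorem rs_def {r n : ℕ} {a : (Fin r → ℕ) → Fin n → ℤ} (ha : ∀ i, ZF r (fun v => a v i))
    {q : (Fin r → ℕ) → ℤ} (hq : ZF r q) (k : ℕ) : ZF r (fun v => rs (a v) (q v) k) := by
  unfold rs resultant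
  refine zf_det fun i j => ?_
  unfold sylvester
  refine Fin.addCases (fun j₁ => ?_) (fun j₁ => ?_) j
  · by_cases h : (i : ℕ) ∈ Set.Icc (j₁ : ℕ) (j₁ + k)
    · refine (zf_coeff_q hq k ((i : ℕ) - j₁)).congr fun v => ?_
      rw [Matrix.of_apply, Fin.addCases_left, if_pos h]
    · refine (ZF.const 0).congr fun v => ?_
      rw [Matrix.of_apply, Fin.addCases_left, if_neg h]
  · by_cases h : (i : ℕ) ∈ Set.Icc (j₁ : ℕ) (j₁ + n)
    · refine (zf_coeff_pol ha ((i : ℕ) - j₁)).congr fun v => ?_
      rw [Matrix.of_apply, Fin.addCases_right, if_pos h]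
    · refine (ZF.const 0).congr fun v => ?_
      rw [Matrix.of_apply, Fin.addCases_right, if_neg h]

/-- **The coefficients of a polynomial are definable if the products over the roots are.** -/
theorem coef_def {r n : ℕ} {q : (Fin r → ℕ) → ℕ} (hq : DFun r q) (hq0 : ∀ v, 0 < q v)
    (a : (Fin r → ℕ) → Fin n → ℤ) {B : (Fin r → ℕ) → ℕ} (hB : DFun r B)
    (hab : ∀ v i, (a v i).natAbs ≤ B v)
    (hr : ∀ v (γ : ℂ), ((pol (a v)).map (Int.castRingHom ℂ)).IsRoot γ → ‖γ‖ < q v)
    {e f : ℕ → (Fin r → ℕ) → ℤ} (he : ∀ k, 1 ≤ k → k ≤ 2 ^ (n + 1) → ZF r (e k))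
    (hf : ∀ k, 1 ≤ k → k ≤ 2 ^ (n + 1) → ZF r (f k)) (he0 : ∀ k v, e k v ≠ 0)
    (h : ∀ k v, 1 ≤ k → k ≤ 2 ^ (n + 1) → e k v * rs (a v) (q v) k = f k v) (i : Fin n) :
    ZF r (fun v => a v i) := by
  classical
  -- the vector is determined
  have huniq : ∀ v (b : Fin n → ℤ),
      (∀ k ∈ Finset.Icc 1 (2 ^ (n + 1)), e k v * rs b (q v) k = f k v) → b = a v := by
    intro v b hb
    refine (pol_uniq (a v) b (q := (q v : ℤ)) (by exact_mod_cast hq0 v) ?_ ?_).symm
    · intro γ hγ
      have h1 := hr v γ hγ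
      simpa using h1
    · intro k hk1 hk2
      have h1 := hb k (Finset.mem_Icc.2 ⟨hk1, hk2⟩)
      rw [← h k v hk1 hk2] at h1
      exact (mul_left_cancel₀ (he0 k v) h1).symm
  -- one definable function of the vector
  have key : ∀ F : (Fin n → ℤ) → ℕ,
      (∀ (m : ℕ) (x : Fin n → (Fin m → ℕ) → ℤ), (∀ j, ZF m (x j)) →
        DFun m (fun w => F (fun j => x j w))) →
      (∀ b, F b ≤ ∑ j, (b j).natAbs) → DFun r (fun v => F (a v)) := by
    intro F hF hFB
    refine DFun.ofGraph (b := fun v => ∑ _j : Fin n, B v) (DFun.finSum _ fun _ => hB)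
      (fun v => (hFB _).trans (Finset.sum_le_sum fun j _ => hab v j)) ?_
    have h1 := Delta0.bexState (κ := Fin n ⊕ Fin n) (n := r + 1)
      (b := fun w => B (fun i => w i.succ)) hB.weak
      (P := fun z w =>
        (∀ k ∈ Finset.Icc 1 (2 ^ (n + 1)), e k (fun i => w i.succ) *
          rs (fun j => (z (.inl j) : ℤ) - (z (.inr j) : ℤ)) (q (fun i => w i.succ)) k =
            f k (fun i => w i.succ)) ∧
        w 0 = F (fun j => (z (.inl j) : ℤ) - (z (.inr j) : ℤ))) (by
      intro m x v hx hv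
      have hz : ∀ j, ZF m (fun w => (x (.inl j) w : ℤ) - (x (.inr j) w : ℤ)) := fun j =>
        (ZF.nat (hx _)).sub (ZF.nat (hx _))
      have hq' : ZF m (fun w => ((q (fun i => v i.succ w) : ℕ) : ℤ)) :=
        ZF.nat (hq.comp fun i => hv i.succ)
      refine Delta0.and ?_ ?_
      · have h2 : ∀ k, Delta0 m (fun w => k ∈ Finset.Icc 1 (2 ^ (n + 1)) →
            e k (fun i => v i.succ w) *
            rs (fun j => (x (.inl j) w : ℤ) - (x (.inr j) w : ℤ)) (q (fun i => v i.succ w)) k =
              f k (fun i => v i.succ w)) := by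
          intro k
          by_cases hk : k ∈ Finset.Icc 1 (2 ^ (n + 1))
          · have hk' := Finset.mem_Icc.1 hk
            refine (ZF.eq (((he k hk'.1 hk'.2).comp fun i => hv i.succ).mul (rs_def hz hq' k))
              ((hf k hk'.1 hk'.2).comp fun i => hv i.succ)).of_iff fun w => ?_
            exact ⟨fun h3 => h3 hk, fun h3 _ => h3⟩
          · exact (Delta0.eqFun (DFun.const 0) (DFun.const 0)).of_iff fun w =>
              ⟨fun _ => rfl, fun _ h3 => absurd h3 hk⟩
        refine (Delta0.finAll (Finset.Icc 1 (2 ^ (n + 1))) h2).of_iff fun w => ?_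
        exact ⟨fun h3 k hk _ => h3 k hk, fun h3 k hk => h3 k hk hk⟩
      · exact Delta0.eqFun (hv 0) (hF m _ hz))
    refine h1.of_iff fun w => ?_
    constructor
    · intro hw
      refine ⟨fun s => Sum.elim (fun j => (a (fun i => w i.succ) j).toNat)
        (fun j => (-(a (fun i => w i.succ) j)).toNat) s, ?_, ?_, ?_⟩
      · rintro (j | j)
        · have := hab (fun i => w i.succ) j
          simp only [Sum.elim_inl]
          omega
        · have := hab (fun i => w i.succ) j
          simp only [Sum.elim_inr]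
          omega
      · intro k hk
        have hk' := Finset.mem_Icc.1 hk
        have h3 : (fun j => (((a (fun i => w i.succ) j).toNat : ℕ) : ℤ) -
            (((-(a (fun i => w i.succ) j)).toNat : ℕ) : ℤ)) = a (fun i => w i.succ) := by
          funext j
          omega
        simp only [Sum.elim_inl, Sum.elim_inr]
        rw [h3]
        exact h k _ hk'.1 hk'.2
      · have h3 : (fun j => (((a (fun i => w i.succ) j).toNat : ℕ) : ℤ) -
            (((-(a (fun i => w i.succ) j)).toNat : ℕ) : ℤ)) = a (fun i => w i.succ) := by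
          funext j
          omega
        simp only [Sum.elim_inl, Sum.elim_inr]
        rw [h3]
        exact hw
    · rintro ⟨z, -, hz1, hz2⟩
      rw [hz2, huniq _ _ hz1]
  have hp : DFun r (fun v => (a v i).toNat) :=
    key (fun b => (b i).toNat) (fun m x hx => (hx i).toNat) (fun b => by
      have h1 := Finset.single_le_sum (f := fun j => (b j).natAbs) (fun _ _ => Nat.zero_le _)
        (Finset.mem_univ i)
      omega)
  have hm : DFun r (fun v => (-(a v i)).toNat) :=
    key (fun b => (-(b i)).toNat) (fun m x hx => (hx i).neg.toNat) (fun b => by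
      have h1 := Finset.single_le_sum (f := fun j => (b j).natAbs) (fun _ _ => Nat.zero_le _)
        (Finset.mem_univ i)
      omega)
  refine ⟨_, _, hp, hm, fun v => ?_⟩
  dsimp only
  omega

end Pool.Agent.Unq
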