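import Pool.Agent.Unq.LemP

/-!
# Package Unq-PolU: integer polynomials

* `exists_roots`: over `ℂ` the monic polynomial `pol a` of degree `n` is a product of `n` linear factors
  (`IsAlgClosed.splits`, `Polynomial.Splits.eq_prod_roots` or similar; enumerate the
  roots by `Fin n`, for example `Multiset.toList`, `List.get`).
* `rs_eq`: `rs a q k` is the product of the `q ^ k - γ i ^ k` (`resultant_map_map` for `ℤ → ℂ`,
  `resultant_eq_prod_eval`, or `resultant_prod_left` and `resultant_X_sub_C_left`).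
* `pol_uniq`: choose `γ`, `δ` for `a`, `b`; `x i = γ i / q`, `y i = δ i / q`; the products of the
  `1 - x i ^ k` and `1 - y i ^ k` are `rs a q k / q ^ (n k)`, `rs b q k / q ^ (n k)`. `prod_uniq` gives
  `∏ (1 - x i X) = ∏ (1 - y i X)`; evaluate at `1 / (q T)` for all `T ≠ 0`, multiply by `(q T)^n / q^n`
  to get `∏ (T - γ i) = ∏ (T - δ i)` (or compare coefficients), so `pol a = pol b` over `ℂ`
  (`Polynomial.funext`-like for infinitely many `T`: `Polynomial.eq_of_infinite_eval_eq`), and `a = b`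
  (coefficients of `X ^ (n - 1 - i)`).

Difficulty: 1.2 h.
-/

set_option autoImplicit false

namespace Pool.Agent.Unq

open Polynomial

private theorem degree_tail_lt {n : ℕ} {R : Type*} [CommRing R] (a : Fin n → R) :
    (∑ i : Fin n, C (a i) * X ^ (n - 1 - (i : ℕ))).degree < (n : WithBot ℕ) := by
  refine (degree_sum_le _ _).trans_lt ?_
  refine (Finset.sup_lt_iff (WithBot.bot_lt_coe n)).2 ?_
  intro i _
  refine (degree_C_mul_X_pow_le _ _).trans_lt ?_
  have := i.2
  exact WithBot.coe_lt_coe.2 (show n - 1 - (i : ℕ) < n by omega)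

private theorem pol_monic {n : ℕ} {R : Type*} [CommRing R] (a : Fin n → R) : (pol a).Monic := by
  unfold pol
  exact monic_X_pow_add (degree_tail_lt a)

private theorem pol_natDegree {n : ℕ} {R : Type*} [CommRing R] [Nontrivial R] (a : Fin n → R) :
    (pol a).natDegree = n := by
  unfold pol
  apply natDegree_eq_of_degree_eq_some
  rw [degree_add_eq_left_of_degree_lt]
  · exact degree_X_pow n
  · rw [degree_X_pow]
    exact degree_tail_lt a

private theorem pol_coeff {n : ℕ} {R : Type*} [CommRing R] (a : Fin n → R) (i : Fin n) :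
    (pol a).coeff (n - 1 - (i : ℕ)) = a i := by
  have hi := i.2
  unfold pol
  rw [coeff_add, coeff_X_pow, if_neg (by omega), zero_add, finsetSum_coeff]
  rw [Finset.sum_eq_single i]
  · rw [coeff_C_mul_X_pow, if_pos rfl]
  · intro j _ hj
    have hj2 := j.2
    rw [coeff_C_mul_X_pow, if_neg]
    intro h
    exact hj (Fin.ext (by omega))
  · intro h
    exact absurd (Finset.mem_univ i) h

private theorem prod_get {n : ℕ} {M : Type*} [CommMonoid M] (l : List ℂ) (h : l.length = n)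
    (F : ℂ → M) : ∏ i : Fin n, F (l[(i : ℕ)]'(by rw [h]; exact i.2)) = (l.map F).prod := by
  subst h
  exact Fin.prod_univ_fun_getElem l F

theorem exists_roots {n : ℕ} (a : Fin n → ℤ) : ∃ γ : Fin n → ℂ,
    (pol a).map (Int.castRingHom ℂ) = ∏ i, (X - C (γ i)) := by
  set P : ℂ[X] := (pol a).map (Int.castRingHom ℂ) with hP
  have hm : P.Monic := (pol_monic a).map _
  have hd : P.natDegree = n := by
    rw [hP, (pol_monic a).natDegree_map, pol_natDegree]
  have hs : P.Splits := IsAlgClosed.splits P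
  obtain ⟨l, hl⟩ : ∃ l : List ℂ, (l : Multiset ℂ) = P.roots := Quot.exists_rep P.roots
  have hlen : l.length = n := by
    have h1 := hs.natDegree_eq_card_roots
    rw [← hl, Multiset.coe_card, hd] at h1
    exact h1.symm
  refine ⟨fun i => l[(i : ℕ)]'(by rw [hlen]; exact i.2), ?_⟩
  rw [prod_get l hlen (fun t => X - C t)]
  have h2 := hs.eq_prod_roots_of_monic hm
  rw [h2, ← hl]
  rw [Multiset.map_coe, Multiset.prod_coe]

theorem rs_eq {n : ℕ} (a : Fin n → ℤ) (q : ℤ) (k : ℕ) (γ : Fin n → ℂ)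
    (h : (pol a).map (Int.castRingHom ℂ) = ∏ i, (X - C (γ i))) :
    ((rs a q k : ℤ) : ℂ) = ∏ i, ((q : ℂ) ^ k - γ i ^ k) := by
  have h1 : ((rs a q k : ℤ) : ℂ) = Int.castRingHom ℂ (rs a q k) := rfl
  rw [h1]
  unfold rs
  rw [← resultant_map_map, h]
  have hg : ((C (q ^ k) - X ^ k : ℤ[X]).map (Int.castRingHom ℂ)) = C ((q : ℂ) ^ k) - X ^ k := by
    simp
  rw [hg]
  have hgd : (C ((q : ℂ) ^ k) - X ^ k : ℂ[X]).natDegree ≤ k := by
    refine (natDegree_sub_le _ _).trans ?_
    rw [natDegree_C, natDegree_X_pow]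
    omega
  have hd : (∏ i : Fin n, (X - C (γ i))).natDegree = n := by
    rw [natDegree_prod_of_monic _ _ (fun i _ => monic_X_sub_C _)]
    simp
  have h2 := resultant_prod_left (Finset.univ : Finset (Fin n)) (fun i => X - C (γ i))
    (C ((q : ℂ) ^ k) - X ^ k) k (by simp) hgd
  rw [hd] at h2
  rw [h2]
  refine Finset.prod_congr rfl fun i _ => ?_
  rw [natDegree_X_sub_C, resultant_X_sub_C_left _ _ _ hgd]
  simp

theorem pol_uniq {n : ℕ} (a b : Fin n → ℤ) {q : ℤ} (hq : 0 < q)
    (hr : ∀ γ : ℂ, ((pol a).map (Int.castRingHom ℂ)).IsRoot γ → ‖γ‖ < q)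
    (h : ∀ k, 1 ≤ k → k ≤ 2 ^ (n + 1) → rs a q k = rs b q k) : a = b := by
  obtain ⟨γ, hγ⟩ := exists_roots a
  obtain ⟨δ, hδ⟩ := exists_roots b
  have hq0 : (q : ℂ) ≠ 0 := by exact_mod_cast hq.ne'
  have hx : ∀ i, ‖γ i / (q : ℂ)‖ < 1 := by
    intro i
    have h1 : ‖γ i‖ < q := by
      apply hr
      rw [hγ, IsRoot.def, eval_prod]
      exact Finset.prod_eq_zero (Finset.mem_univ i) (by simp)
    have h2 : ‖(q : ℂ)‖ = (q : ℝ) := by
      rw [Complex.norm_intCast, abs_of_pos (by exact_mod_cast hq)]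
    have h3 : (0 : ℝ) < q := by exact_mod_cast hq
    rw [norm_div, h2, div_lt_one h3]
    exact h1
  have key : ∀ (c : Fin n → ℤ) (ε : Fin n → ℂ)
      (_ : (pol c).map (Int.castRingHom ℂ) = ∏ i, (X - C (ε i))) (k : ℕ),
      ∏ i, (1 - (ε i / (q : ℂ)) ^ k) = ((rs c q k : ℤ) : ℂ) / ((q : ℂ) ^ k) ^ n := by
    intro c ε hc k
    rw [rs_eq c q k ε hc]
    have h4 : ∀ i, (1 - (ε i / (q : ℂ)) ^ k) = ((q : ℂ) ^ k - ε i ^ k) / (q : ℂ) ^ k := by
      intro i
      rw [div_pow, sub_div, div_self (pow_ne_zero k hq0)]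
    rw [Finset.prod_congr rfl (fun i _ => h4 i), Finset.prod_div_distrib]
    simp
  have hu := prod_uniq (fun i => γ i / (q : ℂ)) (fun i => δ i / (q : ℂ)) hx (fun k hk1 hk2 => by
    rw [key a γ hγ k, key b δ hδ k, h k hk1 hk2])
  have hev : ∀ T : ℂ, T ≠ 0 → ∏ i, (T - γ i) = ∏ i, (T - δ i) := by
    intro T hT
    have h5 := congrArg (eval ((q : ℂ) / T)) hu
    rw [eval_prod, eval_prod] at h5
    have h6 : ∀ ε : Fin n → ℂ, ∏ i, (T - ε i)
        = T ^ n * ∏ i, eval ((q : ℂ) / T) (1 - C (ε i / (q : ℂ)) * X : ℂ[X]) := by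
      intro ε
      have h7 : ∀ i, (T - ε i) = T * eval ((q : ℂ) / T) (1 - C (ε i / (q : ℂ)) * X : ℂ[X]) := by
        intro i
        simp only [eval_sub, eval_one, eval_mul, eval_C, eval_X]
        field_simp
      rw [Finset.prod_congr rfl (fun i _ => h7 i), Finset.prod_mul_distrib]
      simp
    rw [h6 γ, h6 δ, h5]
  have hP : (∏ i, (X - C (γ i)) : ℂ[X]) = ∏ i, (X - C (δ i)) := by
    apply Polynomial.eq_of_infinite_eval_eq
    refine Set.Infinite.mono (s := {T : ℂ | T ≠ 0}) ?_ ?_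
    · intro T hT
      have h8 := hev T hT
      simp only [Set.mem_ofPred_eq, eval_prod, eval_sub, eval_X, eval_C]
      exact h8
    · have h9 : {T : ℂ | T ≠ 0} = ({0} : Set ℂ)ᶜ := by
        ext; simp
      rw [h9]
      exact (Set.finite_singleton (0 : ℂ)).infinite_compl
  have hab : pol a = pol b := by
    apply Polynomial.map_injective (Int.castRingHom ℂ) (RingHom.injective_int _)
    rw [hγ, hδ, hP]
  funext i
  rw [← pol_coeff a i, ← pol_coeff b i, hab]

end Pool.Agent.Unq
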