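import Mathlib

/-!
# A polynomial from the products `∏ (q ^ k - γ ^ k)` over its roots: definitions

Project ALL CURVES (`MP_a56640_lc`): the zeta function of a curve is determined by the orders of the
class groups over `F_(q^k)`, `k ≤ K`.

* `el s`: the product of the `1 - [t]`, `t ∈ s`, in the monoid ring of `ℂ`.
* `pol a`: the polynomial `X ^ n + a 0 X ^ (n - 1) + ... + a (n - 1)`.
* `rs a q k`: the product of the `q ^ k - γ ^ k` over the roots `γ` of `pol a` (a resultant).
-/

set_option autoImplicit false

namespace Pool.Agent.Unq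

open Polynomial

/-- the product of the `1 - [t]` in the monoid ring -/
noncomputable def el (s : Multiset ℂ) : MonoidAlgebra ℤ ℂ :=
  (s.map fun t => 1 - MonoidAlgebra.single t 1).prod

/-- `X ^ n + a 0 X ^ (n - 1) + ... + a (n - 1)` -/
noncomputable def pol {n : ℕ} {R : Type*} [CommRing R] (a : Fin n → R) : R[X] :=
  X ^ n + ∑ i : Fin n, C (a i) * X ^ (n - 1 - (i : ℕ))

/-- the product of the `q ^ k - γ ^ k` over the roots `γ` of `pol a` -/
noncomputable def rs {n : ℕ} (a : Fin n → ℤ) (q : ℤ) (k : ℕ) : ℤ :=
  resultant (pol a) (C (q ^ k) - X ^ k) n k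

end Pool.Agent.Unq
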