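import Pool.Agent.Unq.Defs

/-!
# Package Unq-LemK: linear independence of exponential sequences

*`exp_indep`.* Vandermonde: enumerate `Z` by `Fin Z.card` (`Finset.equivFin`), the matrix with the entries
`z_j ^ (k + 1)` is the Vandermonde matrix times the diagonal matrix of the `z_j ≠ 0`;
`Matrix.det_vandermonde_ne_zero_iff`, `Matrix.eq_zero_of_mulVec_eq_zero` (or
`Matrix.eq_zero_of_forall_pow_sum_mul_pow_eq_zero`, Mathlib/LinearAlgebra/Vandermonde).

*`el_hom`.* For a monoid homomorphism `f : ℂ →* R` the ring homomorphism `MonoidAlgebra.lift` (or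
`MonoidAlgebra.liftNCRingHom`) maps `el s` to the product of the `1 - f t`; its value at `u` is the sum of
the `u z * f z` over the support (`Finsupp.sum`).

*`el_eq`.* Let `u = el x - el y`. All elements of the support of `el x` are products of subsets of
`x`: there is a finite set `Z_x` with at most `2 ^ card x` elements, not containing `0`, which
contains the support of `el x` (induction on `x`: `el (t ::ₘ s) = el s - [t] * el s`,
`Z_(t ::ₘ s) = Z_s ∪ t Z_s`). So `u` is supported in `Z = Z_x ∪ Z_y`, `0 ∉ Z`, `Z.card ≤ 2 ^ (n + 1)`. By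
`el_hom` with `f z = z ^ k` the hypothesis says `∑_(z ∈ Z) u z * z ^ k = 0` for `1 ≤ k ≤ 2 ^ (n + 1)`, so
`u = 0` by `exp_indep`. ∎

Difficulty: 1.2 h.
-/

set_option autoImplicit false

namespace Pool.Agent.Unq

open Polynomial

theorem exp_indep (Z : Finset ℂ) (hZ : (0 : ℂ) ∉ Z) (c : ℂ → ℂ)
    (h : ∀ k, 1 ≤ k → k ≤ Z.card → ∑ z ∈ Z, c z * z ^ k = 0) : ∀ z ∈ Z, c z = 0 := by
  classical
  have key : (fun j : Fin Z.card => c (Z.equivFin.symm j) * ((Z.equivFin.symm j : Z) : ℂ)) = 0 := by
    refine Matrix.eq_zero_of_forall_pow_sum_mul_pow_eq_zero (R := ℂ) (n := Z.card)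
      (f := fun j => ((Z.equivFin.symm j : Z) : ℂ))
      (fun a b hab => Z.equivFin.symm.injective (Subtype.ext hab)) ?_
    intro i
    have h2 := h (i + 1) (by omega) (by have := i.2; omega)
    rw [← h2, ← Finset.sum_coe_sort Z (fun z => c z * z ^ ((i : ℕ) + 1)),
      ← Equiv.sum_comp Z.equivFin.symm]
    refine Finset.sum_congr rfl ?_
    intro j _
    ring
  intro z hz
  have h1 := congrFun key (Z.equivFin ⟨z, hz⟩)
  simp only [Equiv.symm_apply_apply, Pi.zero_apply, mul_eq_zero] at h1
  rcases h1 with h1 | h1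
  · exact h1
  · exact absurd (h1 ▸ hz) hZ

private theorem lift_el {R : Type*} [CommRing R] (f : ℂ →* R) (x : Multiset ℂ) :
    MonoidAlgebra.lift ℤ R ℂ f (el x) = (x.map fun t => 1 - f t).prod := by
  rw [el, map_multiset_prod, Multiset.map_map]
  congr 1
  refine Multiset.map_congr rfl ?_
  intro t _
  simp [MonoidAlgebra.lift_single]

theorem el_hom {R : Type*} [CommRing R] (f : ℂ →* R) {x y : Multiset ℂ} (h : el x = el y) :
    (x.map fun t => 1 - f t).prod = (y.map fun t => 1 - f t).prod := by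
  rw [← lift_el f x, ← lift_el f y, h]

private theorem supp_el (x : Multiset ℂ) (hx : (0 : ℂ) ∉ x) :
    ∃ Z : Finset ℂ, (0 : ℂ) ∉ Z ∧ Z.card ≤ 2 ^ Multiset.card x ∧
      ∀ z, z ∉ Z → (el x).coeff z = 0 := by
  classical
  induction x using Multiset.induction_on with
  | empty =>
    refine ⟨{1}, by simp, by simp, ?_⟩
    intro z hz
    have hz1 : (1 : ℂ) ≠ z := fun h => hz (by simp [h])
    simp [el, MonoidAlgebra.one_def, hz1]
  | cons t s ih =>
    have ht : t ≠ 0 := fun h => hx (h ▸ Multiset.mem_cons_self _ _)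
    obtain ⟨Z, h0, hc, hZ⟩ := ih (fun h => hx (Multiset.mem_cons_of_mem h))
    refine ⟨Z ∪ Z.image (fun z => t * z), ?_, ?_, ?_⟩
    · intro hmem
      rcases Finset.mem_union.1 hmem with h1 | h1
      · exact h0 h1
      · obtain ⟨z, hz, hz2⟩ := Finset.mem_image.1 h1
        rcases mul_eq_zero.1 hz2 with h2 | h2
        · exact ht h2
        · exact h0 (h2 ▸ hz)
    · calc (Z ∪ Z.image (fun z => t * z)).card ≤ Z.card + (Z.image (fun z => t * z)).card :=
            Finset.card_union_le _ _
        _ ≤ Z.card + Z.card := by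
            have := Finset.card_image_le (s := Z) (f := fun z => t * z)
            omega
        _ ≤ 2 ^ Multiset.card (t ::ₘ s) := by
            rw [Multiset.card_cons, pow_succ]
            omega
    · intro z hz
      have e1 : el (t ::ₘ s) = el s - MonoidAlgebra.single t 1 * el s := by
        simp [el, sub_mul]
      have e2 : (MonoidAlgebra.single t 1 * el s).coeff z = 1 * (el s).coeff (z / t) := by
        refine MonoidAlgebra.coeff_single_mul_eq_mul_coeff _ ?_
        intro m' _
        constructor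
        · intro h
          rw [← h]
          field_simp
        · intro h
          rw [h]
          field_simp
      have h1 : z ∉ Z := fun h => hz (Finset.mem_union_left _ h)
      have h2 : z / t ∉ Z := fun h => hz (Finset.mem_union_right _
        (Finset.mem_image.2 ⟨z / t, h, by field_simp⟩))
      rw [e1, MonoidAlgebra.coeff_sub, Finsupp.sub_apply, e2, hZ z h1, hZ _ h2]
      simp

theorem el_eq {x y : Multiset ℂ} (hx : (0 : ℂ) ∉ x) (hy : (0 : ℂ) ∉ y) (n : ℕ)
    (hxn : Multiset.card x ≤ n) (hyn : Multiset.card y ≤ n)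
    (h : ∀ k, 1 ≤ k → k ≤ 2 ^ (n + 1) →
      (x.map fun t => 1 - t ^ k).prod = (y.map fun t => 1 - t ^ k).prod) : el x = el y := by
  classical
  obtain ⟨Z1, h01, hc1, hZ1⟩ := supp_el x hx
  obtain ⟨Z2, h02, hc2, hZ2⟩ := supp_el y hy
  have h0 : (0 : ℂ) ∉ Z1 ∪ Z2 := by
    intro hmem
    rcases Finset.mem_union.1 hmem with h1 | h1
    · exact h01 h1
    · exact h02 h1
  have hc : (Z1 ∪ Z2).card ≤ 2 ^ (n + 1) := by
    have a1 := Finset.card_union_le Z1 Z2
    have a2 : 2 ^ Multiset.card x ≤ 2 ^ n := Nat.pow_le_pow_right (by norm_num) hxn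
    have a3 : 2 ^ Multiset.card y ≤ 2 ^ n := Nat.pow_le_pow_right (by norm_num) hyn
    rw [pow_succ]
    omega
  have hev : ∀ (w : Multiset ℂ), (∀ z, z ∉ Z1 ∪ Z2 → (el w).coeff z = 0) → ∀ k : ℕ,
      (w.map fun t => 1 - t ^ k).prod = ∑ z ∈ Z1 ∪ Z2, ((el w).coeff z : ℂ) * z ^ k := by
    intro w hw k
    have e1 := lift_el (powMonoidHom k : ℂ →* ℂ) w
    simp only [powMonoidHom_apply] at e1
    rw [← e1, MonoidAlgebra.lift_apply]
    rw [Finsupp.sum_of_support_subset (s := Z1 ∪ Z2)]
    · refine Finset.sum_congr rfl ?_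
      intro z _
      simp
    · intro z hz
      by_contra hz2
      exact (Finsupp.mem_support_iff.1 hz) (hw z hz2)
    · intro i _
      simp
  have hw1 : ∀ z, z ∉ Z1 ∪ Z2 → (el x).coeff z = 0 := fun z hz =>
    hZ1 z (fun h => hz (Finset.mem_union_left _ h))
  have hw2 : ∀ z, z ∉ Z1 ∪ Z2 → (el y).coeff z = 0 := fun z hz =>
    hZ2 z (fun h => hz (Finset.mem_union_right _ h))
  have key := exp_indep (Z1 ∪ Z2) h0
    (fun z => ((el x).coeff z : ℂ) - ((el y).coeff z : ℂ)) (by
      intro k hk1 hk2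
      have h3 := h k hk1 (hk2.trans hc)
      rw [hev x hw1 k, hev y hw2 k] at h3
      simp only [sub_mul, Finset.sum_sub_distrib]
      rw [h3, sub_self])
  apply MonoidAlgebra.coeff_injective
  ext z
  by_cases hz : z ∈ Z1 ∪ Z2
  · have := key z hz
    have h4 : ((el x).coeff z : ℂ) = ((el y).coeff z : ℂ) := sub_eq_zero.1 this
    exact_mod_cast h4
  · rw [hw1 z hz, hw2 z hz]

end Pool.Agent.Unq
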