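import Pool.Agent.Unq.LemK

/-!
# Package Unq-LemM: all elements of the other multiset have absolute value `< 1`

*Proof.* By `el_hom` with `f z = ‖z‖ ^ m` (real numbers) `∏_x (1 - ‖t‖ ^ m) = ∏_y (1 - ‖t‖ ^ m)` for all
`m`. For `m ≥ 1` the left side is positive, so no `t ∈ y` has `‖t‖ = 1`. For `m → ∞` the left side
tends to `1` (`tendsto_multiset_prod`, `tendsto_pow_atTop_nhds_zero_of_lt_one`). Suppose some
`t₀ ∈ y` has `‖t₀‖ > 1`; the absolute values of the factors on the right tend to `∞` (`‖t‖ > 1`) or to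
`1` (`‖t‖ < 1`), so the absolute value of the product tends to `∞`: a contradiction. (For example:
`y = t₀ ::ₘ y'`; for large `m` all factors of `y'` have absolute value `≥ 1 / 2`, so the absolute value of
the right side is at least `(‖t₀‖ ^ m - 1) / 2 ^ card y'`.) ∎

Difficulty: 0.7 h.
-/

set_option autoImplicit false

namespace Pool.Agent.Unq

open Polynomial

private theorem LemM_ev (s : Multiset ℂ) : (∀ t ∈ s, ‖t‖ ≠ 1) →
    ∀ᶠ m : ℕ in Filter.atTop, (1 / 2 : ℝ) ^ Multiset.card s ≤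
      |(s.map fun t => 1 - ‖t‖ ^ m).prod| := by
  induction s using Multiset.induction_on with
  | empty =>
    intro _
    exact Filter.Eventually.of_forall fun m => by simp
  | cons a s ih =>
    intro hs
    have h1 := ih fun t ht => hs t (Multiset.mem_cons_of_mem ht)
    have h2 : ∀ᶠ m : ℕ in Filter.atTop, (1 / 2 : ℝ) ≤ |1 - ‖a‖ ^ m| := by
      rcases lt_or_gt_of_ne (hs a (Multiset.mem_cons_self a s)) with h | h
      · have h3 := tendsto_pow_atTop_nhds_zero_of_lt_one (norm_nonneg a) h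
        filter_upwards [h3.eventually_le_const (show (0 : ℝ) < 1 / 2 by norm_num)] with m hm
        rw [abs_of_nonneg (by linarith)]
        linarith
      · have h3 := tendsto_pow_atTop_atTop_of_one_lt h
        filter_upwards [h3.eventually_ge_atTop (3 / 2 : ℝ)] with m hm
        rw [abs_of_nonpos (by linarith)]
        linarith
    filter_upwards [h1, h2] with m hm1 hm2
    rw [Multiset.map_cons, Multiset.prod_cons, abs_mul, Multiset.card_cons, pow_succ']
    exact mul_le_mul hm2 hm1 (by positivity) (abs_nonneg _)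

theorem norm_lt {x y : Multiset ℂ} (hx : ∀ t ∈ x, t ≠ 0 ∧ ‖t‖ < 1) (hy : (0 : ℂ) ∉ y)
    (h : el x = el y) : ∀ t ∈ y, ‖t‖ < 1 := by
  have hf : ∀ m : ℕ, (x.map fun t => 1 - ‖t‖ ^ m).prod = (y.map fun t => 1 - ‖t‖ ^ m).prod := by
    intro m
    have h1 := el_hom ((powMonoidHom m : ℝ →* ℝ).comp (normHom : ℂ →*₀ ℝ).toMonoidHom) h
    simpa using h1
  have hpx : ∀ m : ℕ, 1 ≤ m → 0 < (x.map fun t => 1 - ‖t‖ ^ m).prod ∧
      (x.map fun t => 1 - ‖t‖ ^ m).prod ≤ 1 := by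
    intro m hm
    refine Multiset.prod_induction (fun r : ℝ => 0 < r ∧ r ≤ 1) _ ?_ ?_ ?_
    · rintro a b ⟨ha, ha'⟩ ⟨hb, hb'⟩
      exact ⟨mul_pos ha hb, mul_le_one₀ ha' hb.le hb'⟩
    · exact ⟨one_pos, le_rfl⟩
    · intro r hr
      obtain ⟨t, ht, rfl⟩ := Multiset.mem_map.1 hr
      have h1 := (hx t ht).2
      have h2 : ‖t‖ ^ m < 1 := pow_lt_one₀ (norm_nonneg t) h1 (by omega)
      have h3 : 0 ≤ ‖t‖ ^ m := by positivity
      exact ⟨by linarith, by linarith⟩
  have hne : ∀ t ∈ y, ‖t‖ ≠ 1 := by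
    intro t ht h1
    have h2 := (hpx 1 le_rfl).1
    rw [hf 1, Multiset.prod_eq_zero] at h2
    · exact lt_irrefl _ h2
    · exact Multiset.mem_map.2 ⟨t, ht, by rw [h1]; norm_num⟩
  intro t ht
  by_contra hlt
  have h1 : 1 < ‖t‖ := lt_of_le_of_ne (not_lt.1 hlt) (Ne.symm (hne t ht))
  obtain ⟨y', rfl⟩ := Multiset.exists_cons_of_mem ht
  have h2 := LemM_ev y' fun s hs => hne s (Multiset.mem_cons_of_mem hs)
  have h3 := (tendsto_pow_atTop_atTop_of_one_lt h1).eventually_ge_atTop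
    (1 + 2 * 2 ^ Multiset.card y' : ℝ)
  obtain ⟨m, hm2, hm3, hm1⟩ := (h2.and (h3.and (Filter.eventually_ge_atTop 1))).exists
  have h4 := (hpx m hm1)
  rw [hf m, Multiset.map_cons, Multiset.prod_cons] at h4
  have h5 : |(1 - ‖t‖ ^ m) * (y'.map fun t => 1 - ‖t‖ ^ m).prod| ≤ 1 := by
    rw [abs_of_pos h4.1]
    exact h4.2
  rw [abs_mul] at h5
  have h6 : (2 * 2 ^ Multiset.card y' : ℝ) ≤ |1 - ‖t‖ ^ m| := by
    rw [abs_of_nonpos (by nlinarith [pow_pos (two_pos : (0 : ℝ) < 2) (Multiset.card y')])]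
    linarith
  have h7 : (2 * 2 ^ Multiset.card y' : ℝ) * (1 / 2) ^ Multiset.card y' ≤ 1 :=
    (mul_le_mul h6 hm2 (by positivity) (abs_nonneg _)).trans h5
  have h8 : (2 * 2 ^ Multiset.card y' : ℝ) * (1 / 2) ^ Multiset.card y' = 2 := by
    rw [mul_assoc, ← mul_pow]
    norm_num
  linarith

end Pool.Agent.Unq
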