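import Pool.Agent.Unq.LemM

/-!
# Package Unq-LemP: the multisets are equal

*`el_far`.* All `t ∈ s` have `‖t‖ < 1`, `‖w‖ ≥ 1`: `(el s) w = 1` if `w = 1`, otherwise `0`. Induction on
`s`: `el (t ::ₘ s) = el s - [t] * el s` and, for `t ≠ 0`, `([t] * el s) w = (el s) (w / t)` with
`‖w / t‖ > 1` (`MonoidAlgebra.single_mul_apply` needs a group; use
`MonoidAlgebra.single_mul_apply_aux` or `MonoidAlgebra.mul_apply`; all `t ≠ 0`).

*`el_top`.* All `t ∈ s` have `0 < ‖t‖ ≤ ρ < 1` and `‖z‖ = ρ`: `(el s) z = -(count z s)`. Induction: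
`(el (t ::ₘ s)) z = (el s) z - (el s) (z / t)`, and `‖z / t‖ ≥ 1`, so the last term is `1` if `z = t` and
otherwise `0` by `el_far`.

*`el_inj`.* Induction on `card x + card y`. If both are empty: nothing to do. Otherwise let `ρ` be the
largest absolute value of an element of `x + y`, attained by `z`. By `el_top` `count z x = count z y`, so `z`
is in both, `x = z ::ₘ x'`, `y = z ::ₘ y'`. For all `k ≥ 1` by `el_hom` (`f t = t ^ k`) and
`1 - z ^ k ≠ 0` the products of the `1 - t ^ k` over `x'` and `y'` are equal; `el_eq` (with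
`n = card x' + card y'`) gives `el x' = el y'`; induction hypothesis. ∎

*`prod_uniq`.* Let `x'`, `y'` be the multisets of the nonzero `x i`, `y i`. The products over `x'`, `y'` are the
same as over all `i`, as `1 - 0 ^ k = 1` for `k ≥ 1` and `1 - C 0 * X = 1`. `el_eq`, `norm_lt`,
`el_inj`. ∎

Difficulty: 1.3 h.
-/

set_option autoImplicit false

namespace Pool.Agent.Unq

open Polynomial

private theorem coeff_cons (t : ℂ) (ht : t ≠ 0) (s : Multiset ℂ) (z : ℂ) :
    (el (t ::ₘ s)).coeff z = (el s).coeff z - (el s).coeff (z / t) := by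
  have e1 : el (t ::ₘ s) = el s - MonoidAlgebra.single t 1 * el s := by
    simp [el, sub_mul]
  have e2 : (MonoidAlgebra.single t 1 * el s).coeff z = 1 * (el s).coeff (z / t) := by
    refine MonoidAlgebra.coeff_single_mul_eq_mul_coeff _ ?_
    intro m' _
    constructor
    · intro h
      rw [← h]
      field_simp
    · intro h
      rw [h]
      field_simp
  rw [e1, MonoidAlgebra.coeff_sub, Finsupp.sub_apply, e2, one_mul]

private theorem el_far (s : Multiset ℂ) (hs : ∀ t ∈ s, t ≠ 0 ∧ ‖t‖ < 1) (w : ℂ) (hw : 1 ≤ ‖w‖) :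
    (el s).coeff w = if w = 1 then 1 else 0 := by
  classical
  induction s using Multiset.induction_on generalizing w with
  | empty =>
    by_cases h : w = 1
    · simp [el, h]
    · simp [el, MonoidAlgebra.one_def, h]
  | cons t s ih =>
    obtain ⟨ht, ht1⟩ := hs t (Multiset.mem_cons_self _ _)
    have hs' : ∀ t ∈ s, t ≠ 0 ∧ ‖t‖ < 1 := fun u hu => hs u (Multiset.mem_cons_of_mem hu)
    have htp : 0 < ‖t‖ := norm_pos_iff.2 ht
    have hwt : 1 < ‖w / t‖ := by
      rw [norm_div, lt_div_iff₀ htp]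
      linarith
    have hne : w / t ≠ 1 := by
      intro h
      rw [h] at hwt
      simp at hwt
    rw [coeff_cons t ht, ih hs' w hw, ih hs' (w / t) hwt.le, if_neg hne, sub_zero]

private theorem el_top (s : Multiset ℂ) (ρ : ℝ) (hρ : ρ < 1) (hs : ∀ t ∈ s, t ≠ 0 ∧ ‖t‖ ≤ ρ)
    (z : ℂ) (hz : ‖z‖ = ρ) : (el s).coeff z = -((s.count z : ℕ) : ℤ) := by
  classical
  induction s using Multiset.induction_on with
  | empty =>
    have h : z ≠ 1 := by
      intro h
      rw [h] at hz
      simp at hz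
      linarith
    simp [el, MonoidAlgebra.one_def, Ne.symm h]
  | cons t s ih =>
    obtain ⟨ht, ht1⟩ := hs t (Multiset.mem_cons_self _ _)
    have hs' : ∀ t ∈ s, t ≠ 0 ∧ ‖t‖ ≤ ρ := fun u hu => hs u (Multiset.mem_cons_of_mem hu)
    have htp : 0 < ‖t‖ := norm_pos_iff.2 ht
    have hwt : 1 ≤ ‖z / t‖ := by
      rw [norm_div, le_div_iff₀ htp, hz]
      linarith
    have hfar := el_far s (fun u hu => ⟨(hs' u hu).1, (hs' u hu).2.trans_lt hρ⟩) (z / t) hwt
    rw [coeff_cons t ht, ih hs', hfar, Multiset.count_cons]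
    have hiff : z / t = 1 ↔ z = t := by
      rw [div_eq_one_iff_eq ht]
    by_cases h : z = t
    · rw [if_pos (hiff.2 h), if_pos h]
      push_cast
      ring
    · rw [if_neg (fun h' => h (hiff.1 h')), if_neg h]
      simp

private theorem el_inj_aux (n : ℕ) : ∀ x y : Multiset ℂ, Multiset.card x + Multiset.card y = n →
    (∀ t ∈ x, t ≠ 0 ∧ ‖t‖ < 1) → (∀ t ∈ y, t ≠ 0 ∧ ‖t‖ < 1) → el x = el y → x = y := by
  classical
  induction n using Nat.strong_induction_on with
  | _ n ih =>
    intro x y hn hx hy h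
    by_cases hemp : x + y = 0
    · have h1 : Multiset.card (x + y) = 0 := by rw [hemp, Multiset.card_zero]
      rw [Multiset.card_add] at h1
      rw [Multiset.card_eq_zero.1 (by omega : Multiset.card x = 0),
        Multiset.card_eq_zero.1 (by omega : Multiset.card y = 0)]
    · have hne : (x + y).toFinset.Nonempty := by
        rw [Multiset.toFinset_nonempty]
        exact hemp
      obtain ⟨z, hz, hmax⟩ := Finset.exists_max_image (x + y).toFinset (fun t => ‖t‖) hne
      rw [Multiset.mem_toFinset, Multiset.mem_add] at hz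
      have hmx : ∀ t ∈ x, t ≠ 0 ∧ ‖t‖ ≤ ‖z‖ := fun t ht => ⟨(hx t ht).1,
        hmax t (by rw [Multiset.mem_toFinset, Multiset.mem_add]; exact Or.inl ht)⟩
      have hmy : ∀ t ∈ y, t ≠ 0 ∧ ‖t‖ ≤ ‖z‖ := fun t ht => ⟨(hy t ht).1,
        hmax t (by rw [Multiset.mem_toFinset, Multiset.mem_add]; exact Or.inr ht)⟩
      have hz1 : ‖z‖ < 1 := by
        rcases hz with h1 | h1
        · exact (hx z h1).2
        · exact (hy z h1).2
      have c1 := el_top x ‖z‖ hz1 hmx z rfl
      have c2 := el_top y ‖z‖ hz1 hmy z rfl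
      have c3 : x.count z = y.count z := by
        rw [h, c2] at c1
        exact_mod_cast (neg_injective c1).symm
      have hzx : z ∈ x := by
        rcases hz with h1 | h1
        · exact h1
        · rw [← Multiset.count_pos, c3]
          exact Multiset.count_pos.2 h1
      have hzy : z ∈ y := by
        rw [← Multiset.count_pos, ← c3]
        exact Multiset.count_pos.2 hzx
      obtain ⟨x', rfl⟩ := Multiset.exists_cons_of_mem hzx
      obtain ⟨y', rfl⟩ := Multiset.exists_cons_of_mem hzy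
      have hx' : ∀ t ∈ x', t ≠ 0 ∧ ‖t‖ < 1 := fun u hu => hx u (Multiset.mem_cons_of_mem hu)
      have hy' : ∀ t ∈ y', t ≠ 0 ∧ ‖t‖ < 1 := fun u hu => hy u (Multiset.mem_cons_of_mem hu)
      have hel : el x' = el y' := by
        refine el_eq (fun h0 => (hx' 0 h0).1 rfl) (fun h0 => (hy' 0 h0).1 rfl)
          (Multiset.card x' + Multiset.card y') (by omega) (by omega) ?_
        intro k hk1 _
        have h2 := el_hom (powMonoidHom k : ℂ →* ℂ) h
        simp only [powMonoidHom_apply, Multiset.map_cons, Multiset.prod_cons] at h2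
        have h3 : (1 : ℂ) - z ^ k ≠ 0 := by
          intro h4
          have h5 : z ^ k = 1 := (sub_eq_zero.1 h4).symm
          have h6 : ‖z‖ ^ k = 1 := by
            rw [← norm_pow, h5, norm_one]
          have h7 : ‖z‖ ^ k < 1 := pow_lt_one₀ (norm_nonneg z) hz1 (by omega)
          linarith
        exact mul_left_cancel₀ h3 h2
      rw [ih (Multiset.card x' + Multiset.card y') (by
        rw [← hn, Multiset.card_cons, Multiset.card_cons]; omega) x' y' rfl hx' hy' hel]

theorem el_inj {x y : Multiset ℂ} (hx : ∀ t ∈ x, t ≠ 0 ∧ ‖t‖ < 1)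
    (hy : ∀ t ∈ y, t ≠ 0 ∧ ‖t‖ < 1) (h : el x = el y) : x = y :=
  el_inj_aux _ x y rfl hx hy h

private theorem prod_filter {M : Type*} [CommMonoid M] (g : ℂ → M) (hg : g 0 = 1)
    (s : Multiset ℂ) : ((s.filter (fun t => t ≠ 0)).map g).prod = (s.map g).prod := by
  classical
  induction s using Multiset.induction_on with
  | empty => simp
  | cons t s ih =>
    by_cases h : t = 0
    · rw [Multiset.filter_cons_of_neg _ (by simp [h]), ih, Multiset.map_cons, Multiset.prod_cons,
        h, hg, one_mul]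
    · rw [Multiset.filter_cons_of_pos (p := fun t => t ≠ 0) _ h, Multiset.map_cons,
        Multiset.map_cons, Multiset.prod_cons, Multiset.prod_cons, ih]

theorem prod_uniq {n : ℕ} (x y : Fin n → ℂ) (hx : ∀ i, ‖x i‖ < 1)
    (h : ∀ k, 1 ≤ k → k ≤ 2 ^ (n + 1) → ∏ i, (1 - x i ^ k) = ∏ i, (1 - y i ^ k)) :
    ∏ i, (1 - C (x i) * X : ℂ[X]) = ∏ i, (1 - C (y i) * X : ℂ[X]) := by
  classical
  have hp : ∀ (w : Fin n → ℂ) {M : Type} [CommMonoid M] (g : ℂ → M), g 0 = 1 →
      ∏ i, g (w i) =
        ((((Finset.univ : Finset (Fin n)).val.map w).filter (fun t => t ≠ 0)).map g).prod := by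
    intro w M _ g hg
    rw [prod_filter g hg, Multiset.map_map]
    rfl
  have hcard : ∀ w : Fin n → ℂ, Multiset.card
      (((Finset.univ : Finset (Fin n)).val.map w).filter (fun t => t ≠ 0)) ≤ n := by
    intro w
    refine (Multiset.card_le_card (Multiset.filter_le _ _)).trans ?_
    simp
  have hzero : ∀ w : Fin n → ℂ,
      (0 : ℂ) ∉ ((Finset.univ : Finset (Fin n)).val.map w).filter (fun t => t ≠ 0) := by
    intro w hw
    exact (Multiset.mem_filter.1 hw).2 rfl
  have hx1 : ∀ t ∈ ((Finset.univ : Finset (Fin n)).val.map x).filter (fun t => t ≠ 0),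
      t ≠ 0 ∧ ‖t‖ < 1 := by
    intro t ht
    obtain ⟨ht1, ht2⟩ := Multiset.mem_filter.1 ht
    obtain ⟨i, _, hi⟩ := Multiset.mem_map.1 ht1
    exact ⟨ht2, hi ▸ hx i⟩
  have hel := el_eq (hzero x) (hzero y) n (hcard x) (hcard y) (by
    intro k hk1 hk2
    have hg : (fun t : ℂ => 1 - t ^ k) 0 = 1 := by
      simp only [zero_pow (by omega : k ≠ 0), sub_zero]
    rw [← hp x (fun t => 1 - t ^ k) hg, ← hp y (fun t => 1 - t ^ k) hg]
    exact h k hk1 hk2)
  have hy1 := norm_lt hx1 (hzero y) hel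
  have heq := el_inj hx1 (fun t ht => ⟨(Multiset.mem_filter.1 ht).2, hy1 t ht⟩) hel
  have hg2 : (fun t : ℂ => (1 - C t * X : ℂ[X])) 0 = 1 := by simp
  rw [hp x (fun t => (1 - C t * X : ℂ[X])) hg2, hp y (fun t => (1 - C t * X : ℂ[X])) hg2, heq]

end Pool.Agent.Unq
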